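import Pool.Agent.helper96.PP2.SpecC

/-!
# Row pg:ABP (MP_655a6f_al): finite p-subgroups of GL_2 of a field are commutative, p odd
-/

set_option autoImplicit false
set_option linter.unusedVariables false

namespace Pool.Agent.PP2

open Topology Matrix

private theorem ABP_cross {k : Type} [Field k] (v1 v2 v3 u1 u2 u3 w1 w2 w3 : k)
    (hv : ¬ (v1 = 0 ∧ v2 = 0 ∧ v3 = 0))
    (a1 : u1 * v2 = v1 * u2) (a2 : v1 * u3 = u1 * v3) (a3 : u2 * v3 = v2 * u3)
    (b1 : w1 * v2 = v1 * w2) (b2 : v1 * w3 = w1 * v3) (b3 : w2 * v3 = v2 * w3) :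
    u1 * w2 = w1 * u2 ∧ w1 * u3 = u1 * w3 ∧ u2 * w3 = w2 * u3 := by
  by_cases h1 : v1 = 0
  · by_cases h2 : v2 = 0
    · have h3 : v3 ≠ 0 := fun h => hv ⟨h1, h2, h⟩
      refine ⟨?_, ?_, ?_⟩
      · apply mul_left_cancel₀ (mul_ne_zero h3 h3)
        linear_combination (-v3 * w2) * a2 + (v1 * u3) * b3 + (v3 * u2) * b2 - (v1 * w3) * a3
      · apply mul_left_cancel₀ h3
        linear_combination (-u3) * b2 + w3 * a2
      · apply mul_left_cancel₀ h3
        linear_combination w3 * a3 - u3 * b3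
    · refine ⟨?_, ?_, ?_⟩
      · apply mul_left_cancel₀ h2
        linear_combination w2 * a1 - u2 * b1
      · apply mul_left_cancel₀ (mul_ne_zero h2 h2)
        linear_combination (v2 * u3) * b1 - (v2 * w3) * a1 + (v1 * u2) * b3 - (v1 * w2) * a3
      · apply mul_left_cancel₀ h2
        linear_combination w2 * a3 - u2 * b3
  · refine ⟨?_, ?_, ?_⟩
    · apply mul_left_cancel₀ h1
      linear_combination (-u1) * b1 + w1 * a1
    · apply mul_left_cancel₀ h1
      linear_combination w1 * a2 - u1 * b2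
    · apply mul_left_cancel₀ (mul_ne_zero h1 h1)
      linear_combination (-v1 * w3) * a1 + (v1 * u3) * b1 + (u1 * v2) * b2 - (w1 * v2) * a2

/-- the centraliser of a matrix which is not a scalar is commutative -/
private theorem ABP_cent {k : Type} [Field k] (Z A B : M2 k) (hZ : ¬ ∃ c : k, Z = c • (1 : M2 k))
    (hA : A * Z = Z * A) (hB : B * Z = Z * B) : A * B = B * A := by
  have hv : ¬ (Z 0 1 = 0 ∧ Z 1 0 = 0 ∧ Z 0 0 - Z 1 1 = 0) := by
    rintro ⟨h1, h2, h3⟩
    apply hZ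
    refine ⟨Z 0 0, ?_⟩
    ext i j
    fin_cases i <;> fin_cases j <;> simp [h1, h2]
    linear_combination -h3
  have eqs : ∀ C D : M2 k, C * D = D * C ↔
      (C 0 1 * D 1 0 = D 0 1 * C 1 0 ∧ D 0 1 * (C 0 0 - C 1 1) = C 0 1 * (D 0 0 - D 1 1) ∧
        C 1 0 * (D 0 0 - D 1 1) = D 1 0 * (C 0 0 - C 1 1)) := by
    intro C D
    constructor
    · intro h
      have h00 := congrFun (congrFun h 0) 0
      have h01 := congrFun (congrFun h 0) 1
      have h10 := congrFun (congrFun h 1) 0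
      simp only [Matrix.mul_apply, Fin.sum_univ_two] at h00 h01 h10
      refine ⟨?_, ?_, ?_⟩
      · linear_combination h00
      · linear_combination h01
      · linear_combination h10
    · rintro ⟨h1, h2, h3⟩
      ext i j
      fin_cases i <;> fin_cases j <;> simp [Matrix.mul_apply, Fin.sum_univ_two]
      · linear_combination h1
      · linear_combination h2
      · linear_combination h3
      · linear_combination -h1
  obtain ⟨a1, a2, a3⟩ := (eqs A Z).1 hA
  obtain ⟨b1, b2, b3⟩ := (eqs B Z).1 hB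
  rw [eqs]
  exact ABP_cross (Z 0 1) (Z 1 0) (Z 0 0 - Z 1 1) (A 0 1) (A 1 0) (A 0 0 - A 1 1) (B 0 1) (B 1 0) (B 0 0 - B 1 1)
    hv a1 a2 a3 b1 b2 b3

/-- a scalar matrix of determinant one of odd order is one -/
private theorem ABP_scal {k : Type} [Field k] (c : k) (n : ℕ) (h2 : c ^ 2 = 1) (hn : c ^ n = 1) (hodd : Odd n) :
    c = 1 := by
  obtain ⟨m, rfl⟩ := hodd
  rw [pow_succ, pow_mul, h2, one_pow, one_mul] at hn
  exact hn

theorem ABP_row : ABP_stmt := by
  intro p k _ P hp hp2 hfin hP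
  by_contra hcon
  -- all central elements are scalars
  have hsc : ∀ z ∈ P, (∀ g ∈ P, g * z = z * g) → ∃ c : k, (z : M2 k) = c • (1 : M2 k) := by
    intro z hz hc
    by_contra hns
    apply hcon
    intro x hx y hy
    apply Units.ext
    have h1 := congrArg (fun u : GL (Fin 2) k => (u : M2 k)) (hc x hx)
    have h2 := congrArg (fun u : GL (Fin 2) k => (u : M2 k)) (hc y hy)
    exact ABP_cent (z : M2 k) (x : M2 k) (y : M2 k) hns h1 h2
  -- the centre is not everything
  have hne : Subgroup.center P ≠ ⊤ := by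
    intro htop
    apply hcon
    intro x hx y hy
    have h1 : (⟨x, hx⟩ : P) ∈ Subgroup.center P := by rw [htop]; trivial
    have h2 := Subgroup.mem_center_iff.1 h1 ⟨y, hy⟩
    exact (congrArg (fun u : P => (u : GL (Fin 2) k)) h2).symm
  have hpf : Fact p.Prime := ⟨hp⟩
  have hnt : Nontrivial (P ⧸ Subgroup.center P) := by
    rw [← not_subsingleton_iff_nontrivial]
    intro hss
    exact hne (QuotientGroup.subgroup_eq_top_of_subsingleton _ hss)
  have hQ : IsPGroup p (P ⧸ Subgroup.center P) := hP.to_quotient _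
  have hcn := hQ.center_nontrivial
  obtain ⟨⟨q, hq⟩, hq1⟩ := exists_ne (1 : Subgroup.center (P ⧸ Subgroup.center P))
  obtain ⟨y, rfl⟩ := QuotientGroup.mk_surjective q
  have hy : y ∉ Subgroup.center P := by
    intro h
    apply hq1
    apply Subtype.ext
    exact (QuotientGroup.eq_one_iff y).2 h
  apply hy
  rw [Subgroup.mem_center_iff]
  intro g
  -- the commutator is central
  have hcom : g * y * g⁻¹ * y⁻¹ ∈ Subgroup.center P := by
    rw [← QuotientGroup.eq_one_iff]
    have h1 := Subgroup.mem_center_iff.1 hq (QuotientGroup.mk g)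
    have h2 : ((g * y * g⁻¹ * y⁻¹ : P) : P ⧸ Subgroup.center P) = (g : P ⧸ Subgroup.center P) * (y : P ⧸ Subgroup.center P)
        * (g : P ⧸ Subgroup.center P)⁻¹ * (y : P ⧸ Subgroup.center P)⁻¹ := rfl
    rw [h2, h1]
    group
  obtain ⟨c, hc⟩ := hsc ((g * y * g⁻¹ * y⁻¹ : P) : GL (Fin 2) k) (Subtype.property _) (by
    intro x hx
    have h1 := Subgroup.mem_center_iff.1 hcom ⟨x, hx⟩
    exact congrArg (fun u : P => (u : GL (Fin 2) k)) h1)
  have hdet : Matrix.det (((g * y * g⁻¹ * y⁻¹ : P) : GL (Fin 2) k) : M2 k) = 1 := by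
    have h1 : Matrix.GeneralLinearGroup.det ((g * y * g⁻¹ * y⁻¹ : P) : GL (Fin 2) k) = 1 := by
      have h2 : ((g * y * g⁻¹ * y⁻¹ : P) : GL (Fin 2) k) = (g : GL (Fin 2) k) * (y : GL (Fin 2) k) * (g : GL (Fin 2) k)⁻¹
          * (y : GL (Fin 2) k)⁻¹ := rfl
      rw [h2, map_mul, map_mul, map_mul, map_inv, map_inv,
        mul_comm (Matrix.GeneralLinearGroup.det (g : GL (Fin 2) k)) (Matrix.GeneralLinearGroup.det (y : GL (Fin 2) k))]
      group
    exact congrArg Units.val h1
  have hc2 : c ^ 2 = 1 := by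
    rw [hc, Matrix.det_smul, Matrix.det_one, mul_one, Fintype.card_fin] at hdet
    exact hdet
  obtain ⟨r, hr⟩ := hP (g * y * g⁻¹ * y⁻¹)
  have hcr : c ^ (p ^ r) = 1 := by
    have h1 := congrArg (fun u : P => (((u : P) : GL (Fin 2) k) : M2 k)) hr
    have h2 : ((((g * y * g⁻¹ * y⁻¹) ^ (p ^ r) : P) : GL (Fin 2) k) : M2 k) =
        (((g * y * g⁻¹ * y⁻¹ : P) : GL (Fin 2) k) : M2 k) ^ (p ^ r) := by
      rw [Subgroup.coe_pow, Units.val_pow_eq_pow_val]
    have h3 : (((g * y * g⁻¹ * y⁻¹ : P) : GL (Fin 2) k) : M2 k) ^ (p ^ r) = 1 := by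
      rw [← h2]; exact h1
    rw [hc, smul_pow, one_pow] at h3
    have h4 := congrFun (congrFun h3 0) 0
    simpa using h4
  have hodd : Odd (p ^ r) := (hp.odd_of_ne_two hp2).pow
  have hc1 := ABP_scal c (p ^ r) hc2 hcr hodd
  rw [hc1, one_smul] at hc
  have h5 : (g * y * g⁻¹ * y⁻¹ : P) = 1 := by
    apply Subtype.ext
    apply Units.ext
    exact hc
  have h6 : g * y = (g * y * g⁻¹ * y⁻¹) * (y * g) := by group
  rw [h6, h5, one_mul]

end Pool.Agent.PP2
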