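import Pool.Agent.helper96.PP2.SpecB

/-!
# Row pg:CMN (MP_655a6f_al): commutators
-/

set_option autoImplicit false
set_option linter.unusedVariables false

namespace Pool.Agent.PP2

open Topology Matrix

theorem CMN_row (hHAV : HAV_stmt) (hAMU : AMU_stmt) (hLTR : LTR_stmt) (hLLE : LLE_stmt) (hLCM : LCM_stmt)
    (hLCT : LCT_stmt) : CMN_stmt := by
  intro p R _ _ _ _ _ _ J hp hp2 hS Γ hΓ n g hg h hh hX hY
  have hle : ∀ m k : ℕ, Lc Γ (m + k) ≤ Lc Γ m := by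
    intro m k
    induction k with
    | zero => exact le_rfl
    | succ k ih => exact ((hLLE R Γ).1 (m + k)).trans ih
  have hcl : ∀ m : ℕ, IsClosed (Lc Γ m : Set (M2 R)) := fun m => (hLTR p R J hp hp2 hS Γ hΓ m).1
  have hhalf : ∀ m : ℕ, ∀ W ∈ Lc Γ m, ⅟(2 : R) • W ∈ Lc Γ m := fun m W hW =>
    (hHAV p R J hp hp2 hS).1 (Lc Γ m) (hcl m) W hW
  have hY0 : TH h ∈ LL Γ := by
    have h1 : TH h ∈ Lc Γ (0 + n) := by rw [zero_add]; exact hY
    exact hle 0 n h1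
  have hZ : Br (TH g) (TH h) ∈ Lc Γ (n + 1) := by
    have h1 := (hLLE R Γ).2 0 n (TH g) hX (TH h) hY
    rw [zero_add] at h1
    exact h1
  -- multiplication by the half trace minus one
  have hmul : ∀ k ∈ Sg J, TH k ∈ LL Γ → ∀ m : ℕ, 1 ≤ m → ∀ W ∈ Lc Γ m, (ht k - 1) • W ∈ Lc Γ (m + 2) := by
    intro k hk hk2 m hm W hW
    refine hAMU p R J hp hp2 hS k hk (Lc Γ (m + 2)) (Lc Γ m) (hcl _) (hle m 2) ?_ W hW
    intro V hV
    exact hLCT p R J hp hp2 hS Γ hΓ m hm (TH k) hk2 (TH k) hk2 V hV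
  have hmul2 : ∀ k ∈ Sg J, TH k ∈ LL Γ → ∀ m : ℕ, 1 ≤ m → ∀ W ∈ Lc Γ m, ht k • W ∈ Lc Γ m := by
    intro k hk hk2 m hm W hW
    have h1 : ht k • W = (ht k - 1) • W + W := by rw [sub_smul, one_smul, sub_add_cancel]
    rw [h1]
    exact (Lc Γ m).add_mem (hle m 2 (hmul k hk hk2 m hm W hW)) hW
  have hA : (ht g * ht h - 1) • Br (TH g) (TH h) ∈ Lc Γ (n + 2) := by
    have h1 : (ht g * ht h - 1) • Br (TH g) (TH h) =
        (ht g - 1) • (ht h • Br (TH g) (TH h)) + (ht h - 1) • Br (TH g) (TH h) := by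
      rw [smul_smul, ← add_smul]; congr 1; ring
    rw [h1]
    refine (Lc Γ (n + 2)).add_mem ?_ ?_
    · exact hle (n + 2) 1 (hmul g hg hX (n + 1) (by omega) _ (hmul2 h hh hY0 (n + 1) (by omega) _ hZ))
    · exact hle (n + 2) 1 (hmul h hh hY0 (n + 1) (by omega) _ hZ)
  have hB : (⅟(2 : R) * Bf (TH g) (TH h)) • Br (TH g) (TH h) ∈ Lc Γ (n + 2) := by
    rw [mul_smul]
    apply hhalf
    exact hle (n + 2) 1 (hLCT p R J hp hp2 hS Γ hΓ (n + 1) (by omega) (TH g) hX (TH h) hY0 _ hZ)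
  have hC : (⅟(2 : R) * ht g) • Br (Br (TH g) (TH h)) (TH h) ∈ Lc Γ (n + 2) := by
    rw [mul_smul]
    apply hhalf
    apply hmul2 g hg hX (n + 2) (by omega)
    have h1 := (hLLE R Γ).2 (n + 1) n _ hZ (TH h) hY
    have h2 : n + 1 + n + 1 = (n + 2) + n := by ring
    rw [h2] at h1
    exact hle (n + 2) n h1
  have hD : (⅟(2 : R) * ht h) • Br (Br (TH g) (TH h)) (TH g) ∈ Lc Γ (n + 2) := by
    rw [mul_smul]
    apply hhalf
    apply hmul2 h hh hY0 (n + 2) (by omega)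
    exact (hLLE R Γ).2 (n + 1) 0 _ hZ (TH g) hX
  have hfin : TH (g * h * g⁻¹ * h⁻¹) - Br (TH g) (TH h) ∈ Lc Γ (n + 2) := by
    rw [Lib_TH_comm J g h hg hh]
    have h1 : (ht g * ht h + ⅟(2 : R) * Bf (TH g) (TH h)) • Br (TH g) (TH h)
        - (⅟(2 : R) * ht g) • Br (Br (TH g) (TH h)) (TH h)
        - (⅟(2 : R) * ht h) • Br (Br (TH g) (TH h)) (TH g) - Br (TH g) (TH h) =
        (ht g * ht h - 1) • Br (TH g) (TH h) + (⅟(2 : R) * Bf (TH g) (TH h)) • Br (TH g) (TH h)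
        - (⅟(2 : R) * ht g) • Br (Br (TH g) (TH h)) (TH h)
        - (⅟(2 : R) * ht h) • Br (Br (TH g) (TH h)) (TH g) := by
      rw [add_smul, sub_smul, one_smul]; abel
    rw [h1]
    exact (Lc Γ (n + 2)).sub_mem ((Lc Γ (n + 2)).sub_mem ((Lc Γ (n + 2)).add_mem hA hB) hC) hD
  refine ⟨hfin, ?_⟩
  have h1 : TH (g * h * g⁻¹ * h⁻¹) = (TH (g * h * g⁻¹ * h⁻¹) - Br (TH g) (TH h)) + Br (TH g) (TH h) := by
    rw [sub_add_cancel]
  rw [h1]
  exact (Lc Γ (n + 1)).add_mem (hle (n + 1) 1 hfin) hZ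

end Pool.Agent.PP2
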